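import Pool.Agent.Helper49.QL.Defs
import Pool.Agent.Helper3.CL.EndL

/-!
# QL5: another index set for the norm ring
-/

set_option autoImplicit false

namespace Pool.Agent.Helper29.QL

open MvPolynomial Pool.Agent.Helper18.CL Pool.Agent.Helper49.QL
open AlgebraicGeometry CategoryTheory Pool.Agent.Helper15

theorem map_nf {R R' : Type*} [CommRing R] [CommRing R'] (φ : R →+* R') {l : ℕ} [NeZero l] (a : R)
    (x : Fin l → R) : φ (nf a x) = nf (φ a) (fun k => φ (x k)) := by
  unfold nf
  rw [RingHom.map_det]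
  congr 1
  ext p q
  simp only [RingHom.mapMatrix_apply, Matrix.map_apply, Matrix.of_apply, map_mul]
  congr 1
  split_ifs <;> simp

/-- **QL5.** another index set -/
theorem nring_reindex {K : Type} [Field K] {A : Type} [CommRing A] [IsDomain A] [Algebra K A]
    {m : ℕ} {ι : Type} (e : Fin m ≃ ι) (l : ι → ℕ) [∀ i, NeZero (l i)] (a b : ι → A)
    (h : PotentiallyDense K (Spec (CommRingCat.of (Pool.Agent.Helper3.CL.NormRing
        (fun i => l (e i)) (fun i => a (e i)) (fun i => b (e i)))))
      (Spec.map (CommRingCat.ofHom (algebraMap K (Pool.Agent.Helper3.CL.NormRing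
        (fun i => l (e i)) (fun i => a (e i)) (fun i => b (e i))))))) :
    PotentiallyDense K (Spec (CommRingCat.of (NRing l a b)))
      (Spec.map (CommRingCat.ofHom (algebraMap K (NRing l a b)))) := by
  set σ : (Σ i : Fin m, Fin (l (e i))) ≃ (Σ i : ι, Fin (l i)) :=
    Equiv.sigmaCongrLeft (β := fun i : ι => Fin (l i)) e with hσ
  have hσi : ∀ (i : Fin m) (k : Fin (l (e i))), σ ⟨i, k⟩ = ⟨e i, k⟩ := fun i k => rfl
  set f : MvPolynomial (Σ i : Fin m, Fin (l (e i))) A ≃ₐ[K] MvPolynomial (Σ i : ι, Fin (l i)) A :=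
    (MvPolynomial.renameEquiv A σ).restrictScalars K with hf
  have hfa : ∀ x, f x = MvPolynomial.rename σ x := fun x => rfl
  have hIJ : Ideal.span (Set.range fun i : ι =>
      (nf (C (a i)) (fun k => X ⟨i, k⟩) - C (b i) : MvPolynomial (Σ i, Fin (l i)) A)) =
      Ideal.map (f : MvPolynomial (Σ i : Fin m, Fin (l (e i))) A →+*
        MvPolynomial (Σ i : ι, Fin (l i)) A)
        (Pool.Agent.Helper3.CL.idL (fun i => l (e i)) (fun i => a (e i)) (fun i => b (e i))) := by
    unfold Pool.Agent.Helper3.CL.idL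
    rw [Ideal.map_span, ← Set.range_comp]
    congr 1
    have hg : ∀ i : Fin m, (f : MvPolynomial (Σ i : Fin m, Fin (l (e i))) A →+*
        MvPolynomial (Σ i : ι, Fin (l i)) A) (nf (C (a (e i))) (fun k => X ⟨i, k⟩) - C (b (e i))) =
        nf (C (a (e i))) (fun k => X ⟨e i, k⟩) - C (b (e i)) := by
      intro i
      rw [map_sub, map_nf]
      have e1 : ∀ y : A, (f : MvPolynomial (Σ i : Fin m, Fin (l (e i))) A →+*
          MvPolynomial (Σ i : ι, Fin (l i)) A) (C y) = C y := by
        intro y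
        show f (C y) = _
        rw [hfa, rename_C]
      have e2 : (fun k => (f : MvPolynomial (Σ i : Fin m, Fin (l (e i))) A →+*
          MvPolynomial (Σ i : ι, Fin (l i)) A) (X ⟨i, k⟩)) =
          fun k : Fin (l (e i)) => (X ⟨e i, k⟩ : MvPolynomial (Σ i : ι, Fin (l i)) A) := by
        ext1 k
        show f (X ⟨i, k⟩) = _
        rw [hfa, rename_X, hσi]
      rw [e1, e1, e2]
    ext x
    constructor
    · rintro ⟨i, rfl⟩
      obtain ⟨j, rfl⟩ := e.surjective i
      exact ⟨j, hg j⟩
    · rintro ⟨j, rfl⟩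
      exact ⟨e j, (hg j).symm⟩
  let Φ := Ideal.quotientEquivAlg (R₁ := K) _ _ f hIJ
  obtain ⟨L, iL, aL, hfin, hd⟩ := h
  refine ⟨L, iL, aL, hfin, ?_⟩
  have hiso : IsIso (Spec.map (CommRingCat.ofHom (Φ : Pool.Agent.Helper3.CL.NormRing
        (fun i => l (e i)) (fun i => a (e i)) (fun i => b (e i)) →+* NRing l a b))) := by
    have : IsIso (CommRingCat.ofHom (Φ : Pool.Agent.Helper3.CL.NormRing
        (fun i => l (e i)) (fun i => a (e i)) (fun i => b (e i)) →+* NRing l a b)) :=
      (Φ.toRingEquiv.toCommRingCatIso).isIso_hom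
    infer_instance
  have h1 := dense_ratPts_of_openImmersion K L (Spec (CommRingCat.of (NRing l a b))) _
    (Spec.map (CommRingCat.ofHom (Φ : Pool.Agent.Helper3.CL.NormRing
        (fun i => l (e i)) (fun i => a (e i)) (fun i => b (e i)) →+* NRing l a b))) _ hd
  have h2 : (Spec.map (CommRingCat.ofHom (Φ : Pool.Agent.Helper3.CL.NormRing
        (fun i => l (e i)) (fun i => a (e i)) (fun i => b (e i)) →+* NRing l a b))) ≫
      (Spec.map (CommRingCat.ofHom (algebraMap K (Pool.Agent.Helper3.CL.NormRing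
        (fun i => l (e i)) (fun i => a (e i)) (fun i => b (e i)))))) =
      Spec.map (CommRingCat.ofHom (algebraMap K (NRing l a b))) := by
    rw [← Spec.map_comp, ← CommRingCat.ofHom_comp]
    congr 2
    ext x
    exact Φ.commutes x
  rw [h2] at h1
  exact h1

end Pool.Agent.Helper29.QL
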